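import Mathlib
import Pool.Agent.H734R3.GGL.Final

set_option autoImplicit false

/-!
# Complements of low degree in log complete intersections and the generalized
# Green-Griffiths-Lang conjecture
-/

namespace Pool.Agent.Results.MP_160ed4_ag.LogCalabiYauCovers

open Pool.Agent.H734R3.GGL

/-- Let `X` be a subset of projective `N`-space such that every point of `X` lies on a log complete
intersection `{G_j = 0} \ {F = 0}` contained in `X` with `∑ deg G_j + max (deg F) 2 ≤ N + 1`.
Then every point of `X` lies on a line having at most two points outside `X`, and the special sets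
defined by the torus `G_m`, by entire curves, and by punctured disks with an essential singularity
are all equal to `X`. -/
theorem result (N : ℕ) (X : Set (PN N)) (hX : ∀ x ∈ X, OnLogCI X x) :
    (∀ x ∈ X, ∃ W : Submodule ℂ (Fin (N + 1) → ℂ), Module.finrank ℂ W = 2 ∧ x.rep ∈ W ∧
      {y : PN N | y.rep ∈ W ∧ y ∉ X}.encard ≤ 2) ∧
    gmPoints X = X ∧ SpGm X = X ∧ holPoints X = X ∧ SpH X = X ∧ essPoints X = X ∧ SpP X = X :=
  main hX

end Pool.Agent.Results.MP_160ed4_ag.LogCalabiYauCovers
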