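import Mathlib
import Pool.Agent.H734R3.AF.Sp

set_option autoImplicit false

/-!
# Targets of morphisms from log multi-cyclic covers and the generalized
# Green-Griffiths-Lang conjecture
-/

namespace Pool.Agent.Results.MP_160ed4_ag.LogMultiCyclicCovers

open Pool.Agent.H734R3.GGL Pool.Agent.H734R3.AF

/-- Let `U` be the complement of the hypersurface `g = 0` in the multi-cyclic cover
`w_i ^ m_i = f_i(x)` of affine `n`-space, `deg f_i ≤ m_i e_i`, of log canonical degree
`∑ (m_i - 1) e_i + deg g - n ≤ 0` (with some `m_i` even if `∑ (m_i - 1) e_i = n`). If `X` is the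
target of a generically finite dominant morphism from `U`, then the special sets of `X` defined by
the torus `G_m`, by entire curves, and by punctured disks with an essential singularity are all
equal to `X`. -/
theorem result {N n r : ℕ} (hn : 1 ≤ n) (m : Fin r → ℕ) (hm : ∀ i, 2 ≤ m i)
    (f : Fin r → MvPolynomial (Fin n) ℂ) (g : MvPolynomial (Fin n) ℂ)
    (e : Fin r → ℕ) (hdeg : ∀ i, (f i).totalDegree ≤ m i * e i)
    (he : ∑ i, (m i - 1) * e i + g.totalDegree ≤ n)
    (heq : ∑ i, (m i - 1) * e i = n → ∃ i, e i ≠ 0 ∧ 2 ∣ m i)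
    (X : Set (PN N)) (Φ : Fin (N + 1) → MvPolynomial (Fin n ⊕ Fin r) ℂ)
    (D : MvPolynomial (Fin n ⊕ Fin r) ℂ) (hΦ : GenFinMor m f g X Φ D) :
    SpGm X = X ∧ SpH X = X ∧ SpP X = X :=
  sp_eq hn m hm f g e hdeg he heq X Φ D hΦ

end Pool.Agent.Results.MP_160ed4_ag.LogMultiCyclicCovers
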