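import Mathlib
import Pool.Agent.H734R3.Fib.Final

/-!
# Special sets of fibrations in punctured projective lines

Towards the generalized Green-Griffiths-Lang conjecture: for a Zariski open subset `X` of
`Y × P^1`, where `Y` is irreducible with `Sp_p(Y) ≠ Y`, the hyperbolicity conditions on `Sp_p(X)`,
`Sp_h(X)` and on the images of the torus `G_m` are equivalent to the general fibre of `X → Y`
being the projective line minus at least three points.
-/

set_option autoImplicit false

namespace Pool.Agent.Results.MP_160ed4_ag.PuncturedLineFibrations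

open Pool.Agent.H734R3.Fib

/-- Let `Y` be an irreducible subset of a product of projective spaces and `X` a nonempty Zariski
open subset of `Y × P^1`.  Then `X` is irreducible; its three special sets contain the part
`Exc Y X` of `X` over the closure of the set of points of `Y` with fibre `P^1` minus at most two
points, and apart from this part they lie over the corresponding special set of `Y`; and if
`Sp_p(Y) ≠ Y` the three hyperbolicity conditions for `X` are equivalent to each other and to the
general fibre being `P^1` minus at least three points. -/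
theorem result {ι : Type} [Fintype ι] (n : ι → ℕ) (Y : Set (MP n)) (X : Set (MP (add1 n)))
    (hY : Irr Y) (hX : OpenIn Y X) (hne : X.Nonempty) :
    Irr X ∧
    (Exc Y X ⊆ SpGmM X ∧ SpGmM X ⊆ SpHM X ∧ SpHM X ⊆ SpPM X ∧
      SpGmM X ⊆ {x | x ∈ X ∧ base x ∈ SpGmM Y} ∪ Exc Y X ∧
      SpHM X ⊆ {x | x ∈ X ∧ base x ∈ SpHM Y} ∪ Exc Y X ∧
      SpPM X ⊆ {x | x ∈ X ∧ base x ∈ SpPM Y} ∪ Exc Y X) ∧
    (SpPM Y ≠ Y →
      List.TFAE [SpPM X ≠ X, SpHM X ≠ X, SpGmM X ≠ X, zclM Y (nonhyp Y X) ≠ Y]) :=
  ⟨irr_total hY hX hne, special_sets hX, equivalence hY hX hne⟩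

end Pool.Agent.Results.MP_160ed4_ag.PuncturedLineFibrations
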